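import Pool.Agent.Helper28.ND.Spec2

/-!
# ND, part FEX: existence of the forward solution (from the dual problem by time reversal)
-/

set_option autoImplicit false

namespace Pool.Agent.Helper79.ND.FEX

open Pool.Agent.Helper28.ND MeasureTheory Set Filter Topology

theorem rf_eq {d : ℕ} (T : ℝ) (b : ℝ → (Fin d → ℝ) → (Fin d → ℝ)) (f : ℝ → (Fin d → ℝ) → ℝ)
    (v' : ℝ → (Fin d → ℝ) → (Fin d → ℝ)) :
    RF T b f (fun t x => v' (1 + T - t) x) =
      FF (fun t x i => - b (1 + T - t) x i) (fun t => f (1 + T - t)) v' := by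
  funext s y
  unfold RF FF
  have h : 1 + T - (1 + T - s) = s := by ring
  beta_reduce
  rw [h]
  simp only [neg_mul, Finset.sum_neg_distrib]
  ring

theorem main (hPIC : S_PIC) : S_FEX := by
  intro d T b f hT hD
  obtain ⟨B, hB⟩ := hD.bdd
  have hdat : Dat d (1 + T) B B (fun t x i => - b (1 + T - t) x i) (fun t => f (1 + T - t)) := by
    refine ⟨?_, ?_, ?_, ?_, ?_, ?_, ?_, ?_⟩
    · have h1 : Measurable (fun z : ℝ × (Fin d → ℝ) => ((1 + T - z.1, z.2) : ℝ × (Fin d → ℝ))) := by
        fun_prop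
      exact (hD.mb.comp h1).neg
    · intro t x k
      funext i
      show - b (1 + T - t) (fun i => x i + (k i : ℝ)) i = - b (1 + T - t) x i
      rw [hD.pb (1 + T - t) x k]
    · intro t x i
      rw [abs_neg]
      exact (hB _ _).2 i
    · intro t ht x i
      have h1 : 1 + T - t ≤ 0 ∨ T ≤ 1 + T - t := by
        rcases ht with h | h
        · right; linarith
        · left; linarith
      show - b (1 + T - t) x i = 0
      rw [hD.sb _ h1, neg_zero]
    · have h1 : Measurable (fun z : ℝ × (Fin d → ℝ) => ((1 + T - z.1, z.2) : ℝ × (Fin d → ℝ))) := by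
        fun_prop
      exact hD.mf.comp h1
    · intro t
      exact hD.pf _
    · intro t x
      exact (hB _ _).1
    · intro t ht x
      have h1 : 1 + T - t ≤ 0 ∨ T ≤ 1 + T - t := by
        rcases ht with h | h
        · right; linarith
        · left; linarith
      exact hD.sf _ h1 x
  obtain ⟨v', hv'⟩ := hPIC d (1 + T) B B _ _ (by linarith) hdat
  refine ⟨fun t x => Phi (1 + T) (RF T b f (fun t x => v' (1 + T - t) x)) (1 + T - t) x,
    fun t x => v' (1 + T - t) x, hD, ?_, ?_, ?_, ?_, ?_⟩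
  · have h1 : Measurable (fun z : ℝ × (Fin d → ℝ) => ((1 + T - z.1, z.2) : ℝ × (Fin d → ℝ))) := by
      fun_prop
    exact hv'.measv.comp h1
  · intro t
    exact hv'.perv _
  · obtain ⟨C, hC⟩ := hv'.bv
    exact ⟨C, fun t x i => hC _ x i⟩
  · intro t x i
    rw [rf_eq]
    exact hv'.eq (1 + T - t) x i
  · intro t x
    rfl

end Pool.Agent.Helper79.ND.FEX
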