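import Mathlib

/-!
# ND, part SMO: Gaussian averages of periodic functions
-/

set_option autoImplicit false

namespace Pool.Agent.Helper79.ND.SMO

open MeasureTheory Set Filter Topology ProbabilityTheory
open scoped ENNReal NNReal

/-- periods -/
theorem per_eq (W : ℝ → ℝ≥0∞) (q : ℝ) (hq : 0 < q) (hper : ∀ z, W (z + q) = W z) (s : ℝ) :
    ∫⁻ z in Ioc s (s + q), W z = ∫⁻ z in Ioc 0 q, W z := by
  have h1 := isAddFundamentalDomain_Ioc hq s (μ := volume)
  have h2 := isAddFundamentalDomain_Ioc hq 0 (μ := volume)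
  have h3 := h1.setLIntegral_eq h2 W ?_
  · rw [zero_add] at h3
    exact h3
  · rintro ⟨g, hg⟩ x
    obtain ⟨k, rfl⟩ := AddSubgroup.mem_zmultiples_iff.1 hg
    show W (k • q + x) = W x
    have hp : Function.Periodic W q := hper
    rw [add_comm]
    exact hp.zsmul k x

theorem per_shift (W : ℝ → ℝ≥0∞) (q : ℝ) (hq : 0 < q) (hper : ∀ z, W (z + q) = W z) (s : ℝ) :
    ∫⁻ z in Ioc 0 q, W (s + z) = ∫⁻ z in Ioc 0 q, W z := by
  rw [← per_eq W q hq hper s]
  have h1 : MeasurePreserving (fun z : ℝ => s + z) volume volume := measurePreserving_add_left _ s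
  have h2 := h1.setLIntegral_comp_preimage_emb (MeasurableEquiv.addLeft s).measurableEmbedding W
    (Ioc s (s + q))
  rw [← h2]
  congr 2
  ext z
  simp only [mem_Ioc, mem_preimage]
  constructor <;> rintro ⟨h3, h4⟩ <;> constructor <;> linarith

theorem per_neg (W : ℝ → ℝ≥0∞) (q : ℝ) (hq : 0 < q) (hper : ∀ z, W (z + q) = W z) :
    ∫⁻ z in Ioc 0 q, W (-z) = ∫⁻ z in Ioc 0 q, W z := by
  have h1 : MeasurePreserving (fun z : ℝ => -z) volume volume := Measure.measurePreserving_neg _
  have h2 := h1.setLIntegral_comp_preimage_emb (MeasurableEquiv.neg ℝ).measurableEmbedding W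
    (Ico (-q) 0)
  have h3 : (fun z : ℝ => -z) ⁻¹' (Ico (-q) 0) = Ioc 0 q := by
    ext z
    simp only [mem_Ico, mem_preimage, mem_Ioc]
    constructor <;> rintro ⟨h3, h4⟩ <;> constructor <;> linarith
  rw [h3] at h2
  rw [h2, ← per_eq W q hq hper (-q), neg_add_cancel]
  exact setLIntegral_congr Ico_ae_eq_Ioc

theorem g_anti {z w : ℝ} (hz : 0 ≤ z) (hzw : z ≤ w) : gaussianPDF 0 1 w ≤ gaussianPDF 0 1 z := by
  unfold gaussianPDF
  apply ENNReal.ofReal_le_ofReal
  unfold gaussianPDFReal
  refine mul_le_mul_of_nonneg_left ?_ (by positivity)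
  apply Real.exp_le_exp.2
  simp only [sub_zero, NNReal.coe_one, mul_one]
  apply div_le_div_of_nonneg_right _ (by norm_num)
  nlinarith

theorem g_le (z : ℝ) : gaussianPDF 0 1 z ≤ 1 := by
  unfold gaussianPDF
  rw [← ENNReal.ofReal_one]
  apply ENNReal.ofReal_le_ofReal
  unfold gaussianPDFReal
  have h1 : (√(2 * Real.pi * ((1 : ℝ≥0) : ℝ)))⁻¹ ≤ 1 := by
    apply inv_le_one_of_one_le₀
    rw [Real.one_le_sqrt]
    simp only [NNReal.coe_one, mul_one]
    linarith [Real.pi_gt_three]
  have h2 : Real.exp (-(z - 0) ^ 2 / (2 * ((1 : ℝ≥0) : ℝ))) ≤ 1 := by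
    apply Real.exp_le_one_iff.2
    apply div_nonpos_of_nonpos_of_nonneg
    · nlinarith
    · simp
  calc _ ≤ (1 : ℝ) * 1 := mul_le_mul h1 h2 (Real.exp_pos _).le zero_le_one
    _ = 1 := one_mul 1

theorem half (W : ℝ → ℝ≥0∞) (hW : Measurable W) (q : ℝ) (hq : 0 < q)
    (hper : ∀ z, W (z + q) = W z) :
    ∫⁻ z in Ioi 0, gaussianPDF 0 1 z * W z ≤
      (1 + ENNReal.ofReal (1 / q)) * ∫⁻ z in Ioc 0 q, W z := by
  set g := gaussianPDF 0 1 with hg
  have hgm : Measurable g := measurable_gaussianPDF 0 1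
  have hsplit : Ioi (0 : ℝ) = Ioc 0 q ∪ Ioi q := (Ioc_union_Ioi_eq_Ioi hq.le).symm
  rw [hsplit]
  refine (lintegral_union_le _ _ _).trans ?_
  rw [add_mul, one_mul]
  refine add_le_add ?_ ?_
  · refine lintegral_mono fun z => ?_
    calc g z * W z ≤ 1 * W z := by gcongr; exact g_le z
      _ = W z := one_mul _
  · -- the tail
    have h1 : ∀ z ∈ Ioi q, g z * W z ≤
        ENNReal.ofReal (1 / q) * ∫⁻ s in Ioc 0 q, W z * g (z - s) := by
      intro z hz
      have hz' : q < z := hz
      have h2 : ∫⁻ s in Ioc 0 q, W z * g z ≤ ∫⁻ s in Ioc 0 q, W z * g (z - s) := by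
        refine setLIntegral_mono (by fun_prop) fun s hs => ?_
        gcongr
        exact g_anti (by linarith [hs.2]) (by linarith [hs.1])
      rw [setLIntegral_const, Real.volume_Ioc, sub_zero] at h2
      calc g z * W z = ENNReal.ofReal (1 / q) * (W z * g z * ENNReal.ofReal q) := by
            rw [mul_comm (W z * g z), ← mul_assoc, ← ENNReal.ofReal_mul (by positivity),
              one_div_mul_cancel hq.ne', ENNReal.ofReal_one, one_mul, mul_comm]
        _ ≤ _ := by gcongr
    calc ∫⁻ z in Ioi q, g z * W z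
        ≤ ∫⁻ z in Ioi q, ENNReal.ofReal (1 / q) * ∫⁻ s in Ioc 0 q, W z * g (z - s) :=
          setLIntegral_mono (by fun_prop) h1
      _ = ENNReal.ofReal (1 / q) * ∫⁻ z in Ioi q, ∫⁻ s in Ioc 0 q, W z * g (z - s) := by
          rw [lintegral_const_mul _ (by fun_prop)]
      _ = ENNReal.ofReal (1 / q) * ∫⁻ s in Ioc 0 q, ∫⁻ z in Ioi q, W z * g (z - s) := by
          rw [lintegral_lintegral_swap (by fun_prop)]
      _ ≤ ENNReal.ofReal (1 / q) * ∫⁻ s in Ioc 0 q, ∫⁻ z in Ioi 0, W (z + s) * g z := by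
          refine mul_le_mul' le_rfl ?_
          refine setLIntegral_mono' measurableSet_Ioc fun s hs => ?_
          have h3 : MeasurePreserving (fun z : ℝ => z + s) volume volume :=
            measurePreserving_add_right _ s
          have h4 := h3.setLIntegral_comp_preimage_emb
            (MeasurableEquiv.addRight s).measurableEmbedding (fun z => W z * g (z - s)) (Ioi q)
          rw [← h4]
          simp only [add_sub_cancel_right]
          refine lintegral_mono_set ?_
          intro z hz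
          have h5 : q < z + s := hz
          show 0 < z
          linarith [hs.2]
      _ = ENNReal.ofReal (1 / q) * ∫⁻ z in Ioi 0, ∫⁻ s in Ioc 0 q, W (z + s) * g z := by
          rw [lintegral_lintegral_swap (by fun_prop)]
      _ = ENNReal.ofReal (1 / q) * ∫⁻ z in Ioi 0, (∫⁻ s in Ioc 0 q, W s) * g z := by
          congr 1
          refine setLIntegral_congr_fun measurableSet_Ioi fun z _ => ?_
          rw [lintegral_mul_const _ (by fun_prop), per_shift W q hq hper z]
      _ = ENNReal.ofReal (1 / q) * ((∫⁻ s in Ioc 0 q, W s) * ∫⁻ z in Ioi 0, g z) := by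
          rw [lintegral_const_mul _ (by fun_prop)]
      _ ≤ ENNReal.ofReal (1 / q) * ((∫⁻ s in Ioc 0 q, W s) * 1) := by
          gcongr
          refine (setLIntegral_le_lintegral _ _).trans ?_
          rw [hg, lintegral_gaussianPDF_eq_one 0 one_ne_zero]
      _ = _ := by rw [mul_one]

/-- Gaussian averages of periodic functions. -/
theorem gauss_per (W : ℝ → ℝ≥0∞) (hW : Measurable W) (q : ℝ) (hq : 0 < q)
    (hper : ∀ z, W (z + q) = W z) :
    ∫⁻ z, W z ∂(gaussianReal 0 1) ≤
      ENNReal.ofReal (2 + 2 / q) * ∫⁻ z in Ioc 0 q, W z := by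
  have hgm : Measurable (gaussianPDF 0 1) := measurable_gaussianPDF 0 1
  rw [gaussianReal_of_var_ne_zero 0 one_ne_zero, lintegral_withDensity_eq_lintegral_mul _ hgm hW]
  simp only [Pi.mul_apply]
  have h1 : (univ : Set ℝ) = Ioi 0 ∪ Iic 0 := by
    rw [union_comm, Iic_union_Ioi]
  rw [← setLIntegral_univ, h1]
  refine (lintegral_union_le _ _ _).trans ?_
  have h2 : ∫⁻ z in Iic 0, gaussianPDF 0 1 z * W z = ∫⁻ z in Ioi 0, gaussianPDF 0 1 z * W (-z) := by
    rw [setLIntegral_congr (Iio_ae_eq_Iic (a := (0 : ℝ)) (μ := volume)).symm]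
    have h3 : MeasurePreserving (fun z : ℝ => -z) volume volume := Measure.measurePreserving_neg _
    have h4 := h3.setLIntegral_comp_preimage_emb (MeasurableEquiv.neg ℝ).measurableEmbedding
      (fun z => gaussianPDF 0 1 z * W z) (Iio 0)
    rw [← h4]
    have h5 : (fun z : ℝ => -z) ⁻¹' (Iio 0) = Ioi 0 := by
      ext z
      simp
    rw [h5]
    refine lintegral_congr fun z => ?_
    congr 1
    unfold gaussianPDF gaussianPDFReal
    simp
  rw [h2]
  have h6 := half W hW q hq hper
  have h7 := half (fun z => W (-z)) (by fun_prop) q hq (by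
    intro z
    have := hper (-(z + q))
    rw [← this]
    congr 1
    ring)
  rw [per_neg W q hq hper] at h7
  refine (add_le_add h6 h7).trans (le_of_eq ?_)
  rw [← two_mul, ← mul_assoc]
  congr 1
  have h8 : (2 : ℝ) + 2 / q = 2 * (1 + 1 / q) := by ring
  rw [h8, ENNReal.ofReal_mul (by norm_num), ENNReal.ofReal_add (by norm_num) (by positivity)]
  simp

/-- The same with a scale `a` and a shift. -/
theorem gauss_scale (w : ℝ → ℝ≥0∞) (hw : Measurable w) (p a x : ℝ) (hp : 0 < p) (ha : 0 < a)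
    (hper : ∀ z, w (z + p) = w z) :
    ∫⁻ z, w (x + a * z) ∂(gaussianReal 0 1) ≤
      ENNReal.ofReal (2 / a + 2 / p) * ∫⁻ z in Ioc 0 p, w z := by
  have hq : 0 < p / a := by positivity
  have h1 := gauss_per (fun z => w (x + a * z)) (by fun_prop) (p / a) hq (by
    intro z
    have h2 := hper (x + a * z)
    rw [← h2]
    congr 1
    field_simp
    ring)
  refine h1.trans (le_of_eq ?_)
  have h3 : ∫⁻ z in Ioc 0 (p / a), w (x + a * z) =
      ENNReal.ofReal (1 / a) * ∫⁻ z in Ioc 0 p, w (x + z) := by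
    have h4 : Measure.map (fun z : ℝ => a * z) volume = ENNReal.ofReal |a⁻¹| • volume :=
      Real.map_volume_mul_left ha.ne'
    have h5 : Measurable fun z : ℝ => w (x + z) := by fun_prop
    have h6 : ∫⁻ y in Ioc 0 p, w (x + y) ∂(Measure.map (fun z : ℝ => a * z) volume) =
        ∫⁻ z in (fun z : ℝ => a * z) ⁻¹' (Ioc 0 p), w (x + a * z) :=
      setLIntegral_map measurableSet_Ioc h5 (by fun_prop)
    rw [h4, Measure.restrict_smul, lintegral_smul_measure] at h6
    have h7 : (fun z : ℝ => a * z) ⁻¹' (Ioc 0 p) = Ioc 0 (p / a) := by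
      ext z
      simp only [mem_preimage, mem_Ioc]
      rw [le_div_iff₀ ha, mul_comm z a]
      constructor
      · rintro ⟨h8, h9⟩
        exact ⟨(mul_pos_iff_of_pos_left ha).1 h8, h9⟩
      · rintro ⟨h8, h9⟩
        exact ⟨mul_pos ha h8, h9⟩
    rw [h7] at h6
    rw [← h6, abs_of_pos (by positivity), one_div, smul_eq_mul]
  rw [h3, per_shift w p hp hper x, ← mul_assoc, ← ENNReal.ofReal_mul (by positivity)]
  congr 2
  field_simp

/-- Subdividing a period. -/
theorem per_mul (w : ℝ → ℝ≥0∞) (p : ℝ) (hp : 0 < p) (hper : ∀ z, w (z + p) = w z) (n : ℕ) :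
    ∫⁻ z in Ioc 0 (n * p), w z = n * ∫⁻ z in Ioc 0 p, w z := by
  induction n with
  | zero => simp
  | succ n ih =>
    have h1 : Ioc (0 : ℝ) ((n + 1 : ℕ) * p) = Ioc 0 (n * p) ∪ Ioc (n * p) (n * p + p) := by
      rw [Ioc_union_Ioc_eq_Ioc (by positivity) (by linarith)]
      congr 1
      push_cast
      ring
    rw [h1, lintegral_union measurableSet_Ioc (Ioc_disjoint_Ioc_of_le le_rfl), ih,
      per_eq w p hp hper]
    push_cast
    ring

end Pool.Agent.Helper79.ND.SMO
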