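import Pool.Agent.Helper79.ND.SMOb
import Pool.Agent.Helper79.ND.SMOc

/-!
# ND, part SMO: smoothing of the heat flow with a small period in `x 1`
-/

set_option autoImplicit false

namespace Pool.Agent.Helper79.ND.SMO

open Pool.Agent.Helper28.ND Pool.Agent.Helper19.ND MeasureTheory Set Filter Topology
  ProbabilityTheory
open scoped ENNReal NNReal

theorem src {d : ℕ} {T : ℝ} {b : ℝ → (Fin d → ℝ) → (Fin d → ℝ)} {f : ℝ → (Fin d → ℝ) → ℝ}
    {u : ℝ → (Fin d → ℝ) → ℝ} {v : ℝ → (Fin d → ℝ) → (Fin d → ℝ)}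
    (h : FSol d T b f u v) : Src (1 + T) (RF T b f v) where
  meas := rf_meas h
  per := by
    intro t x k
    unfold RF
    rw [h.dat.pf _ x k, h.dat.pb _ x k, h.pv _ x k]
  bdd := rf_bd h
  supp := by
    intro t ht x
    rcases ht with ht | ht
    · unfold RF
      have h1 : T ≤ 1 + T - t := by linarith
      rw [h.dat.sf _ (Or.inr h1)]
      simp [h.dat.sb _ (Or.inr h1)]
    · exact rf_zero h t ht x

/-- the two-dimensional kernel bound -/
theorem two (w : (Fin 2 → ℝ) → ℝ≥0∞) (hw : Measurable w) (a : ℝ) (ha : 0 < a) (n : ℕ) (hn : 0 < n)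
    (h0 : ∀ y0 y1 : ℝ, w ![y0 + 1, y1] = w ![y0, y1])
    (h1 : ∀ y0 y1 : ℝ, w ![y0, y1 + 1 / (n : ℝ)] = w ![y0, y1]) (x : Fin 2 → ℝ) :
    ∫⁻ z, w (x + a • z) ∂(gam 2) ≤
      ENNReal.ofReal ((2 / a + 2) * (2 / a + 2 * n) * (1 / n)) * ∫⁻ y in Q 2, w y := by
  have hn' : (0 : ℝ) < n := by exact_mod_cast hn
  have hnp : (0 : ℝ) < 1 / n := by positivity
  have hv : Measurable fun p : ℝ × ℝ => (![p.1, p.2] : Fin 2 → ℝ) := by
    refine measurable_pi_iff.2 fun i => ?_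
    fin_cases i
    · exact measurable_fst
    · exact measurable_snd
  have hw2 : Measurable fun p : ℝ × ℝ => w ![p.1, p.2] := hw.comp hv
  -- the left-hand side
  have e1 : ∫⁻ z, w (x + a • z) ∂(gam 2) =
      ∫⁻ z0, ∫⁻ z1, w ![x 0 + a * z0, x 1 + a * z1] ∂(gaussianReal 0 1) ∂(gaussianReal 0 1) := by
    have hm : Measurable fun p : ℝ × ℝ => w ![x 0 + a * p.1, x 1 + a * p.2] :=
      hw2.comp (by fun_prop : Measurable fun p : ℝ × ℝ => (x 0 + a * p.1, x 1 + a * p.2))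
    have h2 := (measurePreserving_finTwoArrow (gaussianReal 0 1)).lintegral_comp_emb
      MeasurableEquiv.finTwoArrow.measurableEmbedding
      (fun p : ℝ × ℝ => w ![x 0 + a * p.1, x 1 + a * p.2])
    rw [lintegral_prod _ hm.aemeasurable] at h2
    rw [← h2]
    unfold gam
    refine lintegral_congr fun z => ?_
    congr 1
    funext i
    fin_cases i
    · rfl
    · rfl
  -- the right-hand side
  have e2 : ∫⁻ y in Q 2, w y = ∫⁻ y1 in Ioc 0 1, ∫⁻ y0 in Ioc 0 1, w ![y0, y1] := by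
    have h3 : (volume.restrict (Q 2) : Measure (Fin 2 → ℝ)) =
        Measure.pi (fun _ => volume.restrict (Ioc (0 : ℝ) 1)) := by
      unfold Q
      rw [volume_pi, Measure.restrict_pi_pi]
    rw [h3]
    have h2 := (measurePreserving_finTwoArrow (volume.restrict (Ioc (0 : ℝ) 1))).lintegral_comp_emb
      MeasurableEquiv.finTwoArrow.measurableEmbedding
      (fun p : ℝ × ℝ => w ![p.1, p.2])
    rw [lintegral_prod_symm _ hw2.aemeasurable] at h2
    rw [← h2]
    refine lintegral_congr fun z => ?_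
    congr 1
    funext i
    fin_cases i
    · rfl
    · rfl
  have hH : ∀ z1 : ℝ, Measurable fun z0 : ℝ => w ![z0, z1] := fun z1 =>
    hw2.comp (by fun_prop : Measurable fun z0 : ℝ => (z0, z1))
  have hH' : ∀ z0 : ℝ, Measurable fun z1 : ℝ => w ![z0, z1] := fun z0 =>
    hw2.comp (by fun_prop : Measurable fun z1 : ℝ => (z0, z1))
  have hw3 : Measurable fun p : ℝ × ℝ => w ![x 0 + a * p.1, p.2] :=
    hw2.comp (by fun_prop : Measurable fun p : ℝ × ℝ => (x 0 + a * p.1, p.2))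
  have hw3s : Measurable fun p : ℝ × ℝ => w ![x 0 + a * p.2, p.1] :=
    hw2.comp (by fun_prop : Measurable fun p : ℝ × ℝ => (x 0 + a * p.2, p.1))
  have hw4 : Measurable fun p : ℝ × ℝ => w ![p.2, p.1] :=
    hw2.comp (by fun_prop : Measurable fun p : ℝ × ℝ => (p.2, p.1))
  rw [e1, e2]
  set C1 : ℝ≥0∞ := ENNReal.ofReal (2 / a + 2 / (1 / (n : ℝ))) with hC1
  set C2 : ℝ≥0∞ := ENNReal.ofReal (2 / a + 2 / 1) with hC2
  have h5 : (n : ℝ≥0∞) * ∫⁻ y1 in Ioc 0 (1 / (n : ℝ)), ∫⁻ y0 in Ioc 0 1, w ![y0, y1] =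
      ∫⁻ y1 in Ioc 0 1, ∫⁻ y0 in Ioc 0 1, w ![y0, y1] := by
    have h6 := per_mul (fun y1 => ∫⁻ y0 in Ioc (0 : ℝ) 1, w ![y0, y1]) (1 / (n : ℝ)) hnp
      (fun z => by simp only [h1]) n
    rw [← h6, mul_one_div_cancel hn'.ne']
  have h7 : ∫⁻ y1 in Ioc 0 (1 / (n : ℝ)), ∫⁻ y0 in Ioc 0 1, w ![y0, y1] =
      ENNReal.ofReal (1 / n) * ∫⁻ y1 in Ioc 0 1, ∫⁻ y0 in Ioc 0 1, w ![y0, y1] := by
    rw [← h5, ← mul_assoc]
    have h8 : ENNReal.ofReal (1 / (n : ℝ)) * (n : ℝ≥0∞) = 1 := by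
      rw [← ENNReal.ofReal_natCast n, ← ENNReal.ofReal_mul hnp.le, one_div_mul_cancel hn'.ne',
        ENNReal.ofReal_one]
    rw [h8, one_mul]
  calc ∫⁻ z0, ∫⁻ z1, w ![x 0 + a * z0, x 1 + a * z1] ∂(gaussianReal 0 1) ∂(gaussianReal 0 1)
      ≤ ∫⁻ z0, (C1 * ∫⁻ y1 in Ioc 0 (1 / (n : ℝ)), w ![x 0 + a * z0, y1]) ∂(gaussianReal 0 1) := by
        refine lintegral_mono fun z0 => ?_
        exact gauss_scale (fun y1 => w ![x 0 + a * z0, y1]) (hH' _) (1 / n) a (x 1) hnp ha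
          (fun z => h1 _ z)
    _ = C1 * ∫⁻ z0, (∫⁻ y1 in Ioc 0 (1 / (n : ℝ)), w ![x 0 + a * z0, y1]) ∂(gaussianReal 0 1) := by
        rw [lintegral_const_mul _ (Measurable.lintegral_prod_right' hw3)]
    _ = C1 * ∫⁻ y1 in Ioc 0 (1 / (n : ℝ)), ∫⁻ z0, w ![x 0 + a * z0, y1] ∂(gaussianReal 0 1) := by
        rw [lintegral_lintegral_swap hw3.aemeasurable]
    _ ≤ C1 * ∫⁻ y1 in Ioc 0 (1 / (n : ℝ)), C2 * ∫⁻ y0 in Ioc 0 1, w ![y0, y1] := by
        refine mul_le_mul' le_rfl (lintegral_mono fun y1 => ?_)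
        exact gauss_scale (fun y0 => w ![y0, y1]) (hH _) 1 a (x 0) one_pos ha (fun z => h0 z _)
    _ = C1 * (C2 * ∫⁻ y1 in Ioc 0 (1 / (n : ℝ)), ∫⁻ y0 in Ioc 0 1, w ![y0, y1]) := by
        rw [lintegral_const_mul _ (Measurable.lintegral_prod_right' hw4)]
    _ = _ := by
        rw [h7, hC1, hC2, ← mul_assoc, ← mul_assoc, ← ENNReal.ofReal_mul (by positivity),
          ← ENNReal.ofReal_mul (by positivity)]
        congr 2
        rw [div_one, div_div_eq_mul_div, div_one]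
        ring

theorem main (hKB : S_KB) : S_SMO := by
  refine ⟨16, by norm_num, ?_⟩
  intro T b f u v hT h s t n hs hst htT ht1 hn hnt hper hz x
  obtain ⟨hP, _, _, _⟩ := hKB 2 (1 + T) (RF T b f v) (by linarith) (src h)
  have hus : ∀ y, u s y = Phi (1 + T) (RF T b f v) (1 + T - s) y := h.eu s
  have hum : Measurable (u s) := by
    have h1 : u s = fun y => U (Phi (1 + T) (RF T b f v)) (1 + T - s, y) := funext fun y => hus y
    rw [h1]
    exact hP.meas.comp (by fun_prop)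
  have hup : Per (u s) := by
    intro y k
    rw [hus, hus]
    exact hP.per _ y k
  obtain ⟨B, hB⟩ := hP.bdd
  have hub : ∀ y, |u s y| ≤ B := fun y => by rw [hus]; exact hB _ y
  set a : ℝ := Real.sqrt (2 * (t - s)) with ha
  have hτ : 0 < t - s := by linarith
  have ha0 : 0 < a := Real.sqrt_pos.2 (by linarith)
  have hn' : (0 : ℝ) < n := by exact_mod_cast hn
  -- the kernel bound
  have key := two (fun y => ‖u s y‖ₑ) hum.enorm a ha0 n hn (by
      intro y0 y1
      have h1 := hup ![y0, y1] ![1, 0]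
      have h2 : (fun i => (![y0, y1] : Fin 2 → ℝ) i + (((![1, 0] : Fin 2 → ℤ) i : ℤ) : ℝ)) =
          ![y0 + 1, y1] := by
        funext i
        fin_cases i <;> simp
      rw [h2] at h1
      rw [h1]) (by
      intro y0 y1
      have h1 := hper ![y0, y1]
      simp only [Matrix.cons_val_zero, Matrix.cons_val_one] at h1
      rw [h1]) x
  -- integrability
  have hQ : IsFiniteMeasure (volume.restrict (Q 2)) := by
    refine ⟨?_⟩
    rw [Measure.restrict_apply_univ]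
    unfold Q
    rw [volume_pi, Measure.pi_pi]
    simp
  have hint : Integrable (u s) (volume.restrict (Q 2)) :=
    Integrable.of_bound hum.aestronglyMeasurable B (Eventually.of_forall hub)
  have h3 : ∫⁻ y in Q 2, ‖u s y‖ₑ = ENNReal.ofReal (∫ y in Q 2, |u s y|) := by
    have := ofReal_integral_norm_eq_lintegral_enorm hint
    simp only [Real.norm_eq_abs] at this
    exact this.symm
  have hI0 : 0 ≤ ∫ y in Q 2, |u s y| := integral_nonneg fun y => abs_nonneg _
  have h4 : ENNReal.ofReal |u t x| ≤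
      ENNReal.ofReal ((2 / a + 2) * (2 / a + 2 * n) * (1 / n) * ∫ y in Q 2, |u s y|) := by
    rw [ENNReal.ofReal_mul (by positivity), ← h3]
    refine le_trans ?_ key
    rw [semi h s t hs hst htT hz x, ← Real.norm_eq_abs, ofReal_norm]
    exact enorm_integral_le_lintegral_enorm _
  rw [ENNReal.ofReal_le_ofReal_iff (by positivity)] at h4
  refine h4.trans (mul_le_mul_of_nonneg_right ?_ hI0)
  -- constants
  set r : ℝ := Real.sqrt (t - s) with hr
  have hr0 : 0 < r := Real.sqrt_pos.2 hτ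
  have hr1 : r ≤ 1 := by
    rw [hr, Real.sqrt_le_left (by norm_num)]
    simpa using ht1
  have hra : r ≤ a := Real.sqrt_le_sqrt (by linarith)
  have hnr : 1 / (n : ℝ) ≤ r := by
    rw [hr]
    exact Real.le_sqrt_of_sq_le hnt
  have h5 : 2 / a ≤ 2 / r := div_le_div_of_nonneg_left (by norm_num) hr0 hra
  have h6 : 1 / r ≤ n := by
    rw [div_le_iff₀ hr0]
    rw [div_le_iff₀ hn'] at hnr
    linarith
  have h7 : 1 ≤ 1 / r := by
    rw [le_div_iff₀ hr0]
    linarith
  have h8 : 2 / r = 2 * (1 / r) := by ring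
  calc (2 / a + 2) * (2 / a + 2 * n) * (1 / n) ≤ (4 * (1 / r)) * (4 * n) * (1 / n) := by
        have h9 : 2 / a + 2 ≤ 4 * (1 / r) := by linarith
        have h10 : 2 / a + 2 * n ≤ 4 * n := by linarith
        gcongr
    _ = 16 / r := by
        field_simp
        ring

end Pool.Agent.Helper79.ND.SMO
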