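import Pool.Agent.Helper28.ND.Spec4

/-!
# ND, part QN: uniform bounds in terms of the far mass of the top block
-/

set_option autoImplicit false

namespace Pool.Agent.Helper79.ND.QN

open Pool.Agent.Helper28.ND MeasureTheory Set Filter Topology
open scoped ENNReal NNReal

/-- the `L^q` norm on the torus -/
noncomputable def Nq (q : ℝ) (w : (Fin 2 → ℝ) → ℝ) : ℝ≥0∞ :=
  eLpNorm w (ENNReal.ofReal q) (volume.restrict (Q 2))

instance fin_Q : IsFiniteMeasure (volume.restrict (Q 2) : Measure (Fin 2 → ℝ)) := by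
  refine ⟨?_⟩
  rw [Measure.restrict_apply_univ]
  unfold Q
  rw [volume_pi, Measure.pi_pi]
  simp

theorem nq_iff {q : ℝ} (hq : 2 ≤ q) {w : (Fin 2 → ℝ) → ℝ} (hm : Measurable w)
    (hB : ∃ B, ∀ x, |w x| ≤ B) {A : ℝ} (hA : 0 ≤ A) :
    Nq q w ≤ ENNReal.ofReal A ↔ ∫ x in Q 2, |w x| ^ q ≤ A ^ q := by
  obtain ⟨B, hB⟩ := hB
  have hq0 : 0 < q := by linarith
  have hp1 : ENNReal.ofReal q ≠ 0 := by
    rw [ne_eq, ENNReal.ofReal_eq_zero, not_le]
    exact hq0
  have hmem : MemLp w (ENNReal.ofReal q) (volume.restrict (Q 2)) :=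
    MemLp.of_bound hm.aestronglyMeasurable B (Eventually.of_forall hB)
  unfold Nq
  rw [hmem.eLpNorm_eq_integral_rpow_norm hp1 ENNReal.ofReal_ne_top, ENNReal.toReal_ofReal hq0.le,
    ENNReal.ofReal_le_ofReal_iff hA]
  simp only [Real.norm_eq_abs]
  rw [Real.rpow_inv_le_iff_of_pos (integral_nonneg fun x => Real.rpow_nonneg (abs_nonneg _) _) hA
    hq0]

/-- the factor `r_k^{-(1-1/q)}` -/
noncomputable def Rf (q : ℝ) (n0 N k : ℕ) : ℝ := (rr n0 N k) ^ (-(1 - 1 / q))

theorem rf_pos (q : ℝ) {n0 N k : ℕ} (h : 0 < rr n0 N k) : 0 < Rf q n0 N k :=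
  Real.rpow_pos_of_pos h _

theorem rf_pow {q : ℝ} (hq : 2 ≤ q) {n0 N k : ℕ} (h : 0 < rr n0 N k) {A : ℝ} (hA : 0 ≤ A) :
    A ^ q * (rr n0 N k) ^ (-(q - 1)) = (A * Rf q n0 N k) ^ q := by
  unfold Rf
  rw [Real.mul_rpow hA (Real.rpow_nonneg h.le _), ← Real.rpow_mul h.le]
  congr 2
  field_simp

theorem rf_succ {q : ℝ} {n0 N k : ℕ} (hN : 0 < (N : ℝ)) (h : 0 < rr n0 N k)
    (h1 : rr n0 N (k + 1) = rr n0 N k / N) :
    Rf q n0 N (k + 1) = (N : ℝ) ^ (1 - 1 / q) * Rf q n0 N k := by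
  unfold Rf
  rw [h1, Real.div_rpow h.le hN.le, Real.rpow_neg hN.le, div_inv_eq_mul, mul_comm]

theorem usol_bd (hFREG : S_FREG) {T : ℝ} {b : ℝ → (Fin 2 → ℝ) → (Fin 2 → ℝ)}
    {f : ℝ → (Fin 2 → ℝ) → ℝ} {u : ℝ → (Fin 2 → ℝ) → ℝ} {v : ℝ → (Fin 2 → ℝ) → (Fin 2 → ℝ)}
    (hT : 0 < T) (h : FSol 2 T b f u v) (t : ℝ) :
    Measurable (u t) ∧ ∃ B, ∀ x, |u t x| ≤ B := by
  obtain ⟨h1, _, _, _⟩ := hFREG 2 T b f u v hT h
  refine ⟨?_, ?_⟩
  · have : u t = fun x => U u (t, x) := rfl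
    rw [this]
    exact h1.meas.comp (by fun_prop)
  · obtain ⟨B, hB⟩ := h1.bdd
    exact ⟨B, fun x => hB t x⟩

section main

variable (hREC : S_REC) (hLOW : S_LOW) (hFLQ : S_FLQ) (hFEX : S_FEX)
  (hBLK : S_BLK) (hNUM : S_NUM) (hFREG : S_FREG)

include hLOW hFEX hBLK in
theorem far_pos {T : ℝ} {n0 N M : ℕ} (hP : Par T n0 N M)
    (hB : ∀ (k : ℕ) u v, FSol 2 T (bt n0 N M 0 k) (ft n0 N M 0 k) u v →
      0 < far n0 N M k (u (LL n0 N k))) (n : ℕ) : ∀ (k : ℕ) u v,
    FSol 2 T (bt n0 N M n k) (ft n0 N M n k) u v → 0 < far n0 N M k (u (LL n0 N k)) := by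
  induction n with
  | zero => exact hB
  | succ n ih =>
    intro k u v h
    obtain ⟨w, wv, hw⟩ := hFEX 2 T (bt n0 N M n (k + 1)) (ft n0 N M n (k + 1)) hP.hT
      (hBLK T n0 N M hP n (k + 1)).1
    have h1 := hLOW T n0 N M hP n k u v w wv h hw
    have h2 := ih (k + 1) w wv hw
    have hM : (1 : ℝ) ≤ M := by exact_mod_cast hP.hM
    refine lt_of_lt_of_le ?_ h1
    positivity

include hLOW hFEX hBLK hNUM in
theorem err {T : ℝ} {n0 N M : ℕ} (hP : Par T n0 N M) (C1 : ℝ) (hC1 : 1 ≤ C1)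
    (hB : ∀ (k : ℕ) u v, FSol 2 T (bt n0 N M 0 k) (ft n0 N M 0 k) u v →
      KC n0 N M k * rr n0 N k ≤ C1 * far n0 N M k (u (LL n0 N k))) (n : ℕ) : ∀ (k : ℕ) u v,
    FSol 2 T (bt n0 N M n k) (ft n0 N M n k) u v →
      (M : ℝ) ^ n * KC n0 N M (k + n) * rr n0 N (k + n) * rr n0 N (k + n)
        ≤ C1 * (1 / 2) ^ n * rr n0 N k * far n0 N M k (u (LL n0 N k)) := by
  induction n with
  | zero =>
    intro k u v h
    obtain ⟨hr, _⟩ := hNUM T n0 N M hP k
    have h1 := mul_le_mul_of_nonneg_right (hB k u v h) hr.le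
    simp only [pow_zero, one_mul, mul_one, add_zero]
    calc _ ≤ _ := h1
      _ = _ := by ring
  | succ n ih =>
    intro k u v h
    obtain ⟨w, wv, hw⟩ := hFEX 2 T (bt n0 N M n (k + 1)) (ft n0 N M n (k + 1)) hP.hT
      (hBLK T n0 N M hP n (k + 1)).1
    have h1 := hLOW T n0 N M hP n k u v w wv h hw
    have h2 := ih (k + 1) w wv hw
    obtain ⟨hr, hr1, _⟩ := hNUM T n0 N M hP k
    have hM : (1 : ℝ) ≤ M := by exact_mod_cast hP.hM
    have hN : (4 * 10 ^ 7 : ℝ) ≤ N := by exact_mod_cast hP.hN2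
    have hN0 : (0 : ℝ) < N := by linarith
    have e1 : k + 1 + n = k + (n + 1) := by ring
    rw [e1] at h2
    rw [hr1] at h2
    set F := far n0 N M k (u (LL n0 N k)) with hF
    set G := far n0 N M (k + 1) (w (LL n0 N (k + 1))) with hG
    have hpw : (0 : ℝ) < (1 / 2) ^ n := by positivity
    have h3 : (M : ℝ) * G ≤ 2 * 10 ^ 7 * F := by
      have : (M : ℝ) * G = 2 * 10 ^ 7 * (((M : ℝ) / 2) / 10 ^ 7 * G) := by ring
      rw [this]
      exact mul_le_mul_of_nonneg_left h1 (by norm_num)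
    have hF0 : 0 ≤ F ∨ F < 0 := le_or_gt 0 F
    calc (M : ℝ) ^ (n + 1) * KC n0 N M (k + (n + 1)) * rr n0 N (k + (n + 1)) *
          rr n0 N (k + (n + 1))
        = M * ((M : ℝ) ^ n * KC n0 N M (k + (n + 1)) * rr n0 N (k + (n + 1)) *
          rr n0 N (k + (n + 1))) := by ring
      _ ≤ M * (C1 * (1 / 2) ^ n * (rr n0 N k / N) * G) := by gcongr
      _ = (C1 * (1 / 2) ^ n * (rr n0 N k / N)) * (M * G) := by ring
      _ ≤ (C1 * (1 / 2) ^ n * (rr n0 N k / N)) * (2 * 10 ^ 7 * F) := by gcongr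
      _ = (C1 * (1 / 2) ^ n * rr n0 N k) * ((2 * 10 ^ 7 / N) * F) := by
          field_simp
      _ ≤ (C1 * (1 / 2) ^ n * rr n0 N k) * ((1 / 2) * F) := by
          have hF1 : 0 ≤ F := by
            by_contra hc
            push Not at hc
            have h4 : (0 : ℝ) ≤ (M : ℝ) ^ n * KC n0 N M (k + (n + 1)) * rr n0 N (k + (n + 1)) *
                rr n0 N (k + (n + 1)) := by
              obtain ⟨h5, _, _, _, _, _, h6, _⟩ := hNUM T n0 N M hP (k + (n + 1))
              positivity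
            have h7 : 0 ≤ G := by
              by_contra hc2
              push Not at hc2
              have h8 : C1 * (1 / 2) ^ n * (rr n0 N k / N) * G < 0 :=
                mul_neg_of_pos_of_neg (by positivity) hc2
              linarith
            have h9 : (0 : ℝ) ≤ M * G := by positivity
            linarith
          refine mul_le_mul_of_nonneg_left (mul_le_mul_of_nonneg_right ?_ hF1) (by positivity)
          rw [div_le_iff₀ hN0]
          linarith
      _ = _ := by ring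

include hREC hLOW hFLQ hFEX hBLK hNUM hFREG in
theorem mid {T : ℝ} {n0 N M : ℕ} {q : ℝ} (hP : Par T n0 N M) (hq : 2 ≤ q)
    (hN1 : (N : ℝ) ^ (1 - 1 / q) < ((M : ℝ) / 2) / 10 ^ 7) (C1 Bs : ℝ) (hC1 : 1 ≤ C1)
    (hBs1 : C1 ≤ Bs)
    (hBs2 : (M * C1 + Bs) * (N : ℝ) ^ (1 - 1 / q) ≤ Bs * (((M : ℝ) / 2) / 10 ^ 7))
    (hX : ∀ (n k : ℕ) u v, FSol 2 T (bt n0 N M n k) (ft n0 N M n k) u v →
      ∀ t, LL n0 N k ≤ t → t ≤ T → Nq q (u t) ≤
        ENNReal.ofReal (C1 * far n0 N M k (u (LL n0 N k)) * Rf q n0 N k))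
    (hY : ∀ (k : ℕ) u v, FSol 2 T (bt n0 N M 0 k) (ft n0 N M 0 k) u v →
      0 < far n0 N M k (u (LL n0 N k)) ∧ ∀ t, 0 ≤ t → t ≤ LL n0 N k → Nq q (u t) ≤
        ENNReal.ofReal (C1 * far n0 N M k (u (LL n0 N k)) * Rf q n0 N k)) (n : ℕ) :
    ∀ (k : ℕ) u v, FSol 2 T (bt n0 N M n k) (ft n0 N M n k) u v →
      ∀ t, 0 ≤ t → t ≤ LL n0 N k → Nq q (u t) ≤
        ENNReal.ofReal (Bs * far n0 N M k (u (LL n0 N k)) * Rf q n0 N k) := by
  have hBs0 : 0 < Bs := by linarith
  induction n with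
  | zero =>
    intro k u v h t ht0 ht1
    obtain ⟨hr, _⟩ := hNUM T n0 N M hP k
    have hR := rf_pos q hr
    obtain ⟨hf, h1⟩ := hY k u v h
    refine (h1 t ht0 ht1).trans (ENNReal.ofReal_le_ofReal ?_)
    gcongr
  | succ n ih =>
    intro k u v h t ht0 ht1
    obtain ⟨w, wv, hw⟩ := hFEX 2 T (bt n0 N M n (k + 1)) (ft n0 N M n (k + 1)) hP.hT
      (hBLK T n0 N M hP n (k + 1)).1
    have hlow := hLOW T n0 N M hP n k u v w wv h hw
    have hGpos : 0 < far n0 N M (k + 1) (w (LL n0 N (k + 1))) :=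
      far_pos hLOW hFEX hBLK hP (fun k u v h => (hY k u v h).1) n (k + 1) w wv hw
    have hFpos : 0 < far n0 N M k (u (LL n0 N k)) :=
      far_pos hLOW hFEX hBLK hP (fun k u v h => (hY k u v h).1) (n + 1) k u v h
    obtain ⟨uj, vj, hs, hsum, hz, hsame⟩ := hREC T n0 N M hP n k u v w wv h hw
    obtain ⟨hr, hr1, _, _, hLT, _⟩ := hNUM T n0 N M hP k
    obtain ⟨hr', _, _, hL', hLT', _⟩ := hNUM T n0 N M hP (k + 1)
    have hT := hP.hT
    have hR := rf_pos q hr
    have hR' := rf_pos q hr'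
    have hN : (4 * 10 ^ 7 : ℝ) ≤ N := by exact_mod_cast hP.hN2
    have hN0 : (0 : ℝ) < N := by linarith
    have hM : (1 : ℝ) ≤ M := by exact_mod_cast hP.hM
    set L' := LL n0 N (k + 1) with hL'd
    set F := far n0 N M k (u (LL n0 N k)) with hF
    set G := far n0 N M (k + 1) (w L') with hG
    set R' := Rf q n0 N (k + 1) with hR'd
    set R := Rf q n0 N k with hRd
    have hRR : R' = (N : ℝ) ^ (1 - 1 / q) * R := rf_succ hN0 hr hr1
    set X : ℝ := C1 * G * R' with hXd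
    set Y : ℝ := Bs * G * R' with hYd
    have hX0 : 0 ≤ X := by positivity
    have hY0 : 0 ≤ Y := by positivity
    -- the bound for each contribution
    have hj : ∀ j : Fin M, Nq q (uj j t) ≤ ENNReal.ofReal (X +
        (if 2 * (j : ℕ) * L' < t ∧ t < (2 * (j : ℕ) + 1) * L' then Y else 0)) := by
      intro j
      have hsol := (hs j).sol
      by_cases hc1 : t ≤ 2 * (j : ℕ) * L'
      · have h1 : uj j t = fun _ => 0 := funext fun x => hz j t x hc1
        rw [h1]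
        unfold Nq
        rw [eLpNorm_zero']
        exact bot_le
      · push Not at hc1
        by_cases hc2 : t < (2 * (j : ℕ) + 1) * L'
        · rw [if_pos ⟨hc1, hc2⟩]
          have h1 : uj j t = w (t - 2 * (j : ℕ) * L') := by
            funext x
            have h2 := hsame j (t - 2 * (j : ℕ) * L') x (by linarith)
            rw [← h2]
            congr 1
            ring
          rw [h1]
          refine (ih (k + 1) w wv hw (t - 2 * (j : ℕ) * L') (by linarith) (by linarith)).trans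
            (ENNReal.ofReal_le_ofReal ?_)
          linarith
        · push Not at hc2
          rw [if_neg (fun hh => absurd hh.2 (not_lt.2 hc2)), add_zero]
          have hs0 : (0 : ℝ) ≤ (2 * (j : ℕ) + 1) * L' := by positivity
          have h3 := hFLQ 2 T _ _ _ _ hT hsol q hq ((2 * (j : ℕ) + 1) * L') t hs0 hc2
            (by linarith) (by
              intro r hr2 _ x
              rw [if_neg]
              rintro ⟨_, h5⟩
              linarith)
          have h4 : uj j ((2 * (j : ℕ) + 1) * L') = w L' := by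
            funext x
            have h2 := hsame j L' x le_rfl
            rw [← h2]
            congr 1
            ring
          obtain ⟨hm1, hb1⟩ := usol_bd hFREG hT hsol t
          obtain ⟨hm2, hb2⟩ := usol_bd hFREG hT hw L'
          rw [nq_iff hq hm1 hb1 hX0]
          refine h3.trans ?_
          rw [h4, ← nq_iff hq hm2 hb2 hX0]
          exact hX n (k + 1) w wv hw L' le_rfl (by linarith)
    -- the sum
    have h6 : u t = ∑ j : Fin M, uj j t := by
      funext x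
      rw [hsum, Finset.sum_apply]
    have h7 : Nq q (u t) ≤ ∑ j : Fin M, Nq q (uj j t) := by
      rw [h6]
      unfold Nq
      refine eLpNorm_sum_le (fun j _ => (usol_bd hFREG hT (hs j).sol t).1.aestronglyMeasurable) ?_
      rw [← ENNReal.ofReal_one]
      exact ENNReal.ofReal_le_ofReal (by linarith)
    have h8 : ∑ j : Fin M, Nq q (uj j t) ≤ ENNReal.ofReal (∑ j : Fin M, (X +
        (if 2 * ((j : ℕ) : ℝ) * L' < t ∧ t < (2 * ((j : ℕ) : ℝ) + 1) * L' then Y else 0))) := by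
      rw [ENNReal.ofReal_sum_of_nonneg]
      · exact Finset.sum_le_sum fun j _ => hj j
      · intro j _
        split_ifs <;> linarith
    refine h7.trans (h8.trans (ENNReal.ofReal_le_ofReal ?_))
    rw [Finset.sum_add_distrib, Finset.sum_const, Finset.card_univ, Fintype.card_fin, nsmul_eq_mul]
    have h9 : ∑ j : Fin M, (if 2 * ((j : ℕ) : ℝ) * L' < t ∧ t < (2 * ((j : ℕ) : ℝ) + 1) * L'
        then Y else 0) ≤ Y := by
      rw [← Finset.sum_filter, Finset.sum_const, nsmul_eq_mul]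
      have h10 : (Finset.univ.filter fun j : Fin M =>
          2 * ((j : ℕ) : ℝ) * L' < t ∧ t < (2 * ((j : ℕ) : ℝ) + 1) * L').card ≤ 1 := by
        rw [Finset.card_le_one]
        have haux : ∀ i j : Fin M, (i : ℕ) < j → t < (2 * ((i : ℕ) : ℝ) + 1) * L' →
            2 * ((j : ℕ) : ℝ) * L' < t → False := by
          intro i j hij hi hj
          have h11 : ((i : ℕ) : ℝ) + 1 ≤ ((j : ℕ) : ℝ) := by exact_mod_cast hij
          nlinarith
        intro i hi j hj
        rw [Finset.mem_filter] at hi hj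
        rcases lt_trichotomy (i : ℕ) (j : ℕ) with h12 | h12 | h12
        · exact (haux i j h12 hi.2.2 hj.2.1).elim
        · exact Fin.ext h12
        · exact (haux j i h12 hj.2.2 hi.2.1).elim
      calc _ ≤ ((1 : ℕ) : ℝ) * Y := by
            refine mul_le_mul_of_nonneg_right ?_ hY0
            exact_mod_cast h10
        _ = Y := by simp
    calc M * X + _ ≤ M * X + Y := by linarith
      _ = ((M * C1 + Bs) * (N : ℝ) ^ (1 - 1 / q)) * (G * R) := by
          rw [hXd, hYd, hRR]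
          ring
      _ ≤ (Bs * (((M : ℝ) / 2) / 10 ^ 7)) * (G * R) := by
          refine mul_le_mul_of_nonneg_right hBs2 (by positivity)
      _ = Bs * R * (((M : ℝ) / 2) / 10 ^ 7 * G) := by ring
      _ ≤ Bs * R * F := by gcongr
      _ = Bs * F * R := by ring

end main

theorem main (hREC : S_REC) (hLOW : S_LOW) (hUPP : S_UPP) (hBASE : S_BASE) (hFLQ : S_FLQ)
    (hFEX : S_FEX) (hBLK : S_BLK) (hNUM : S_NUM) (hFREG : S_FREG) : S_QN := by
  intro T n0 N M q hP hq hN1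
  obtain ⟨C1, hC1, hU⟩ := hUPP
  obtain ⟨C2, hC2, hBa⟩ := hBASE
  have hT := hP.hT
  have hM : (1 : ℝ) ≤ M := by exact_mod_cast hP.hM
  have hN : (4 * 10 ^ 7 : ℝ) ≤ N := by exact_mod_cast hP.hN2
  have hN0 : (0 : ℝ) < N := by linarith
  set C3 : ℝ := C1 + C2 with hC3
  have hC3' : 1 ≤ C3 := by linarith
  -- the fractions
  set nu : ℝ := (N : ℝ) ^ (1 - 1 / q) with hnu
  set ka : ℝ := ((M : ℝ) / 2) / 10 ^ 7 with hka
  have hnu0 : 0 < nu := Real.rpow_pos_of_pos hN0 _
  have hka0 : 0 < ka := by linarith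
  have hd : 0 < ka - nu := by linarith
  set Bs : ℝ := C3 + M * C3 * ka / (ka - nu) with hBs
  have hBs1 : C3 ≤ Bs := by
    have : 0 ≤ M * C3 * ka / (ka - nu) := by positivity
    linarith
  have hBs2 : (M * C3 + Bs) * nu ≤ Bs * ka := by
    have h1 : Bs * (ka - nu) = C3 * (ka - nu) + M * C3 * ka := by
      rw [hBs]
      field_simp
    have h2 : 0 ≤ C3 * (ka - nu) := by positivity
    have h3 : M * C3 * nu ≤ M * C3 * ka := by
      have : 0 ≤ (M : ℝ) * C3 := by positivity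
      nlinarith
    nlinarith
  have hBs0 : 0 < Bs := by linarith
  have hfar0 : ∀ (n k : ℕ) u v, FSol 2 T (bt n0 N M n k) (ft n0 N M n k) u v →
      0 < far n0 N M k (u (LL n0 N k)) := fun n =>
    far_pos hLOW hFEX hBLK hP (fun k u v h => (hBa T n0 N M hP k u v h).1) n
  have hX : ∀ (n k : ℕ) u v, FSol 2 T (bt n0 N M n k) (ft n0 N M n k) u v →
      ∀ t, LL n0 N k ≤ t → t ≤ T → Nq q (u t) ≤
        ENNReal.ofReal (C3 * far n0 N M k (u (LL n0 N k)) * Rf q n0 N k) := by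
    intro n k u v h t ht1 ht2
    obtain ⟨hr, _⟩ := hNUM T n0 N M hP k
    have hR := rf_pos q hr
    have hF := hfar0 n k u v h
    have h1 := hU T n0 N M hP n k u v h q hq t ht1 ht2
    obtain ⟨hm, hb⟩ := usol_bd hFREG hT h t
    rw [rf_pow hq hr (by positivity), ← nq_iff hq hm hb (by positivity)] at h1
    refine h1.trans (ENNReal.ofReal_le_ofReal ?_)
    have : C1 ≤ C3 := by linarith
    gcongr
  have hY : ∀ (k : ℕ) u v, FSol 2 T (bt n0 N M 0 k) (ft n0 N M 0 k) u v →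
      0 < far n0 N M k (u (LL n0 N k)) ∧ ∀ t, 0 ≤ t → t ≤ LL n0 N k → Nq q (u t) ≤
        ENNReal.ofReal (C3 * far n0 N M k (u (LL n0 N k)) * Rf q n0 N k) := by
    intro k u v h
    obtain ⟨hF, _, h0⟩ := hBa T n0 N M hP k u v h
    refine ⟨hF, fun t ht1 ht2 => ?_⟩
    obtain ⟨hr, _⟩ := hNUM T n0 N M hP k
    have hR := rf_pos q hr
    have h1 := h0 q hq t ht1 ht2
    obtain ⟨hm, hb⟩ := usol_bd hFREG hT h t
    rw [rf_pow hq hr (by positivity), ← nq_iff hq hm hb (by positivity)] at h1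
    refine h1.trans (ENNReal.ofReal_le_ofReal ?_)
    have : C2 ≤ C3 := by linarith
    gcongr
  obtain ⟨hr0, _, hr0', _⟩ := hNUM T n0 N M hP 0
  have hR0 := rf_pos q hr0
  refine ⟨Bs * Rf q n0 N 0 + Bs, by positivity, ?_⟩
  intro K u v h
  have hF := hfar0 K 0 u v h
  refine ⟨hF, ?_, ?_⟩
  · have h1 := err hLOW hFEX hBLK hNUM hP C3 hC3' (fun k u v h => by
      obtain ⟨hF, h2, _⟩ := hBa T n0 N M hP k u v h
      have : C2 ≤ C3 := by linarith
      refine h2.trans ?_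
      gcongr) K 0 u v h
    rw [zero_add] at h1
    refine h1.trans ?_
    have h2 : C3 * (1 / 2) ^ K * rr n0 N 0 * far n0 N M 0 (u (LL n0 N 0)) =
      (C3 * rr n0 N 0) * (1 / 2) ^ K * far n0 N M 0 (u (LL n0 N 0)) := by ring
    rw [h2]
    have h3 : C3 * rr n0 N 0 ≤ Bs * Rf q n0 N 0 + Bs := by
      have h4 : C3 * rr n0 N 0 ≤ C3 * 1 := by
        refine mul_le_mul_of_nonneg_left ?_ (by linarith)
        linarith
      have h5 : 0 ≤ Bs * Rf q n0 N 0 := by positivity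
      linarith
    gcongr
  · intro t ht0 ht1
    obtain ⟨hm, hb⟩ := usol_bd hFREG hT h t
    rw [← nq_iff hq hm hb (by positivity)]
    rcases le_total t (LL n0 N 0) with h1 | h1
    · refine (mid hREC hLOW hFLQ hFEX hBLK hNUM hFREG hP hq hN1 C3 Bs hC3' hBs1 hBs2 hX hY K 0
        u v h t ht0 h1).trans (ENNReal.ofReal_le_ofReal ?_)
      have h5 : 0 ≤ Bs * far n0 N M 0 (u (LL n0 N 0)) := by positivity
      nlinarith
    · refine (hX K 0 u v h t h1 ht1).trans (ENNReal.ofReal_le_ofReal ?_)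
      have h5 : 0 ≤ Bs * far n0 N M 0 (u (LL n0 N 0)) := by positivity
      have h6 : C3 * far n0 N M 0 (u (LL n0 N 0)) * Rf q n0 N 0 ≤
        Bs * far n0 N M 0 (u (LL n0 N 0)) * Rf q n0 N 0 := by gcongr
      nlinarith

end Pool.Agent.Helper79.ND.QN
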