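import Pool.Agent.Helper28.ND.Spec4

/-!
# ND, part PERX: symmetry, positivity and the small period of the solutions
-/

set_option autoImplicit false

namespace Pool.Agent.Helper79.ND.PERX

open Pool.Agent.Helper28.ND MeasureTheory Set Filter Topology

theorem main (hSIT : S_SIT) (hFLOC : S_FLOC) (hBLK : S_BLK) : S_PERX := by
  intro T n0 N M hP n k u v hF
  obtain ⟨h1, h2, h3, h4, h5, h6, h7, h8, h9⟩ := hBLK T n0 N M hP n k
  refine ⟨hSIT T _ _ u v hP.hT hF (fun t => (h2 t).1) (fun t => (h2 t).2) h4, ?_⟩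
  intro t x
  have hx : ∀ x : Fin 2 → ℝ,
      (fun i => (fun _ : Fin 2 => (1 : ℝ)) i * x i + (![0, rr n0 N k] : Fin 2 → ℝ) i) =
        ![x 0, x 1 + rr n0 N k] := by
    intro x
    funext i
    fin_cases i <;> simp
  have key := hFLOC 2 T (bt n0 N M n k) (bt n0 N M n k) (ft n0 N M n k) (ft n0 N M n k)
    u u v v hP.hT hF hF (fun _ => 1) ![0, rr n0 N k] 1 0 t (fun i => Or.inl rfl) (Or.inl rfl) le_rfl
    (by
      intro s hs hst y
      rw [hx y, add_zero, (h5 s y).2, (h5 s y).1]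
      exact ⟨(one_mul _).symm, fun i => (one_mul _).symm⟩)
    (fun s hs y => (h6 s (Or.inl hs) y).1) t le_rfl x
  rw [hx x, add_zero, one_mul] at key
  exact key

end Pool.Agent.Helper79.ND.PERX
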