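import Pool.Agent.Helper28.ND.Spec2
import Pool.Agent.Helper19.ND.Tools

/-!
# ND, part SMO: the Gaussian semigroup
-/

set_option autoImplicit false

namespace Pool.Agent.Helper79.ND.SMO

open Pool.Agent.Helper28.ND Pool.Agent.Helper19.ND MeasureTheory Set Filter Topology
  ProbabilityTheory
open scoped ENNReal NNReal

theorem one_conv (a b c : ℝ) (h : a ^ 2 + b ^ 2 = c ^ 2) :
    MeasurePreserving (fun p : ℝ × ℝ => a * p.1 + b * p.2)
      ((gaussianReal 0 1).prod (gaussianReal 0 1)) (gaussianReal 0 (.mk (c ^ 2) (sq_nonneg _))) := by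
  refine ⟨by fun_prop, ?_⟩
  have h1 : (fun p : ℝ × ℝ => a * p.1 + b * p.2) =
      (fun p : ℝ × ℝ => p.1 + p.2) ∘ (Prod.map (fun x => a * x) (fun x => b * x)) := rfl
  rw [h1, ← Measure.map_map (by fun_prop) (by fun_prop),
    ← Measure.map_prod_map _ _ (by fun_prop) (by fun_prop), gaussianReal_map_const_mul,
    gaussianReal_map_const_mul]
  have h2 := gaussianReal_conv_gaussianReal (m₁ := a * 0) (m₂ := b * 0)
    (v₁ := .mk (a ^ 2) (sq_nonneg _) * 1) (v₂ := .mk (b ^ 2) (sq_nonneg _) * 1)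
  rw [Measure.conv] at h2
  rw [h2]
  congr 1
  · ring
  · apply NNReal.eq
    push_cast
    simp only [mul_one]
    exact h

theorem one_scale (c : ℝ) :
    MeasurePreserving (fun x : ℝ => c * x) (gaussianReal 0 1)
      (gaussianReal 0 (.mk (c ^ 2) (sq_nonneg _))) := by
  refine ⟨by fun_prop, ?_⟩
  rw [gaussianReal_map_const_mul, mul_zero, mul_one]

theorem gam_conv (d : ℕ) (a b c : ℝ) (h : a ^ 2 + b ^ 2 = c ^ 2) :
    ((gam d).prod (gam d)).map (fun p => a • p.1 + b • p.2) = (gam d).map (fun z => c • z) := by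
  have h1 := measurePreserving_arrowProdEquivProdArrow ℝ ℝ (Fin d)
    (fun _ => gaussianReal 0 1) (fun _ => gaussianReal 0 1)
  have h2 := measurePreserving_pi (fun _ : Fin d => (gaussianReal 0 1).prod (gaussianReal 0 1))
    (fun _ : Fin d => gaussianReal 0 (.mk (c ^ 2) (sq_nonneg _))) (fun _ => one_conv a b c h)
  have h3 := measurePreserving_pi (fun _ : Fin d => gaussianReal 0 1)
    (fun _ : Fin d => gaussianReal 0 (.mk (c ^ 2) (sq_nonneg _))) (fun _ => one_scale c)
  have h4 : (gam d).map (fun z => c • z) =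
      Measure.pi (fun _ : Fin d => gaussianReal 0 (.mk (c ^ 2) (sq_nonneg _))) := h3.map_eq
  rw [h4, ← h2.map_eq]
  unfold gam
  rw [← h1.map_eq, Measure.map_map (by fun_prop) h1.measurable]
  rfl

theorem conv_int {d : ℕ} (a b c : ℝ) (h : a ^ 2 + b ^ 2 = c ^ 2) (H : (Fin d → ℝ) → ℝ)
    (hH : Measurable H) (B : ℝ) (hB : ∀ x, |H x| ≤ B) (x : Fin d → ℝ) :
    ∫ z, H (x + c • z) ∂(gam d) = ∫ z1, ∫ z2, H (x + a • z1 + b • z2) ∂(gam d) ∂(gam d) := by
  have hm : Measurable fun y : Fin d → ℝ => H (x + y) := hH.comp (by fun_prop)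
  have e1 : ∫ z, H (x + c • z) ∂(gam d) = ∫ y, H (x + y) ∂((gam d).map (fun z => c • z)) := by
    rw [integral_map (by fun_prop) hm.aestronglyMeasurable]
  rw [e1, ← gam_conv d a b c h, integral_map (by fun_prop) hm.aestronglyMeasurable]
  have hm2 : Measurable fun p : (Fin d → ℝ) × (Fin d → ℝ) => H (x + (a • p.1 + b • p.2)) :=
    hH.comp (by fun_prop)
  rw [integral_prod]
  · simp only [add_assoc]
  · refine Integrable.of_bound hm2.aestronglyMeasurable B (Eventually.of_forall fun p => ?_)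
    exact hB _

end Pool.Agent.Helper79.ND.SMO
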