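import Pool.Agent.Helper79.ND.SMOa

/-!
# ND, part SMO: the semigroup property of the forward solution when there are no source and drift
-/

set_option autoImplicit false

namespace Pool.Agent.Helper79.ND.SMO

open Pool.Agent.Helper28.ND Pool.Agent.Helper19.ND MeasureTheory Set Filter Topology
  ProbabilityTheory
open scoped ENNReal NNReal

variable {d : ℕ} {T : ℝ} {b : ℝ → (Fin d → ℝ) → (Fin d → ℝ)} {f : ℝ → (Fin d → ℝ) → ℝ}
  {u : ℝ → (Fin d → ℝ) → ℝ} {v : ℝ → (Fin d → ℝ) → (Fin d → ℝ)}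

theorem rf_meas (h : FSol d T b f u v) : Measurable (U (RF T b f v)) := by
  have h1 : Measurable (fun z : ℝ × (Fin d → ℝ) => ((1 + T - z.1, z.2) : ℝ × (Fin d → ℝ))) := by
    fun_prop
  have h2 : U (RF T b f v) = fun z => (U f) (1 + T - z.1, z.2) -
      ∑ j, (U b) (1 + T - z.1, z.2) j * (U v) (1 + T - z.1, z.2) j := rfl
  rw [h2]
  refine (h.dat.mf.comp h1).sub (Finset.measurable_fun_sum _ fun i _ => ?_)
  exact ((measurable_pi_apply i).comp (h.dat.mb.comp h1)).mul
    ((measurable_pi_apply i).comp (h.mv.comp h1))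

theorem rf_bd (h : FSol d T b f u v) : ∃ B : ℝ, ∀ s y, |RF T b f v s y| ≤ B := by
  obtain ⟨B, hB⟩ := h.dat.bdd
  obtain ⟨C, hC⟩ := h.bv
  refine ⟨B + ∑ _i : Fin d, |B| * |C|, fun s y => ?_⟩
  unfold RF
  refine (abs_sub _ _).trans (add_le_add (hB _ _).1 ?_)
  refine (Finset.abs_sum_le_sum_abs _ _).trans (Finset.sum_le_sum fun i _ => ?_)
  rw [abs_mul]
  exact mul_le_mul (((hB _ _).2 i).trans (le_abs_self B)) ((hC _ _ i).trans (le_abs_self C))
    (abs_nonneg _) (abs_nonneg _)

theorem rf_zero (h : FSol d T b f u v) (s : ℝ) (hs : 1 + T ≤ s) (y : Fin d → ℝ) :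
    RF T b f v s y = 0 := by
  unfold RF
  have h1 : 1 + T - s ≤ 0 := by linarith
  rw [h.dat.sf _ (Or.inl h1)]
  simp [h.dat.sb _ (Or.inl h1)]

theorem semi (h : FSol d T b f u v) (s t : ℝ) (hs : 0 ≤ s) (hst : s < t) (htT : t ≤ T)
    (hz : ∀ r, s < r → r < t → ∀ x, f r x = 0 ∧ ∀ i, b r x i = 0) (x : Fin d → ℝ) :
    u t x = ∫ z, u s (x + Real.sqrt (2 * (t - s)) • z) ∂(gam d) := by
  obtain ⟨B, hB⟩ := rf_bd h
  have hm := rf_meas h
  have h0 := rf_zero h
  have hu := h.eu
  set F := RF T b f v with hF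
  have hz' : ∀ r, 1 + T - t < r → r < 1 + T - s → ∀ y, F r y = 0 := by
    intro r hr1 hr2 y
    rw [hF]
    unfold RF
    have h1 := hz (1 + T - r) (by linarith) (by linarith) y
    rw [h1.1]
    simp [h1.2]
  -- u s y
  have e5 : ∀ y, u s y = ∫ r in Ioo 0 s, ∫ z, F (1 + T - s + r) (y + Real.sqrt (2 * r) • z) ∂(gam d) := by
    intro y
    rw [hu]
    unfold Phi
    refine setIntegral_eq_of_subset_of_forall_sdiff_eq_zero measurableSet_Ioo ?_ ?_
    · exact Ioo_subset_Ioo_right (by linarith)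
    · rintro r ⟨hr1, hr2⟩
      have hr3 : s ≤ r := by
        by_contra hc
        exact hr2 ⟨hr1.1, by linarith⟩
      simp only [h0 (1 + T - s + r) (by linarith), integral_zero]
  -- u t x
  have e1 : u t x = ∫ r in Ico (t - s) t, ∫ z, F (1 + T - t + r) (x + Real.sqrt (2 * r) • z) ∂(gam d) := by
    rw [hu]
    unfold Phi
    refine setIntegral_eq_of_subset_of_forall_sdiff_eq_zero measurableSet_Ioo ?_ ?_
    · intro r hr
      exact ⟨by linarith [hr.1], by linarith [hr.2]⟩
    · rintro r ⟨hr1, hr2⟩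
      rcases lt_or_ge r (t - s) with h1 | h1
      · simp only [hz' (1 + T - t + r) (by linarith [hr1.1]) (by linarith), integral_zero]
      · have hr3 : t ≤ r := by
          by_contra hc
          exact hr2 ⟨h1, by linarith⟩
        simp only [h0 (1 + T - t + r) (by linarith), integral_zero]
  have e2 : u t x = ∫ r in Ioo 0 s,
      ∫ z, F (1 + T - t + (r + (t - s))) (x + Real.sqrt (2 * (r + (t - s))) • z) ∂(gam d) := by
    rw [e1, integral_Ico_eq_integral_Ioo, ← integral_Ioc_eq_integral_Ioo,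
      ← integral_Ioc_eq_integral_Ioo, ← intervalIntegral.integral_of_le (by linarith),
      ← intervalIntegral.integral_of_le hs]
    have h1 := intervalIntegral.integral_comp_add_right (a := 0) (b := s)
      (fun r => ∫ z, F (1 + T - t + r) (x + Real.sqrt (2 * r) • z) ∂(gam d)) (t - s)
    rw [h1]
    congr 1 <;> ring
  set a : ℝ := Real.sqrt (2 * (t - s)) with ha
  have e3 : ∀ r ∈ Ioo 0 s,
      ∫ z, F (1 + T - t + (r + (t - s))) (x + Real.sqrt (2 * (r + (t - s))) • z) ∂(gam d) =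
      ∫ z1, ∫ z2, F (1 + T - s + r) (x + a • z1 + Real.sqrt (2 * r) • z2) ∂(gam d) ∂(gam d) := by
    intro r hr
    have h1 : 1 + T - t + (r + (t - s)) = 1 + T - s + r := by ring
    rw [h1]
    refine conv_int a (Real.sqrt (2 * r)) (Real.sqrt (2 * (r + (t - s)))) ?_ _ ?_ B (hB _) x
    · rw [ha, Real.sq_sqrt (by linarith), Real.sq_sqrt (by linarith [hr.1]),
        Real.sq_sqrt (by linarith [hr.1])]
      ring
    · exact hm.comp (measurable_const.prodMk measurable_id)
  rw [e2, setIntegral_congr_fun measurableSet_Ioo e3]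
  rw [integral_integral_swap]
  · refine integral_congr_ae (Eventually.of_forall fun z => ?_)
    exact (e5 _).symm
  · have hm1 : StronglyMeasurable fun p : (ℝ × (Fin d → ℝ)) × (Fin d → ℝ) =>
        F (1 + T - s + p.1.1) (x + a • p.1.2 + Real.sqrt (2 * p.1.1) • p.2) := by
      refine Measurable.stronglyMeasurable ?_
      have : (fun p : (ℝ × (Fin d → ℝ)) × (Fin d → ℝ) =>
          F (1 + T - s + p.1.1) (x + a • p.1.2 + Real.sqrt (2 * p.1.1) • p.2)) =
        U F ∘ fun p : (ℝ × (Fin d → ℝ)) × (Fin d → ℝ) =>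
          ((1 + T - s + p.1.1, x + a • p.1.2 + Real.sqrt (2 * p.1.1) • p.2) :
            ℝ × (Fin d → ℝ)) := rfl
      rw [this]
      exact hm.comp (by fun_prop)
    have hm2 := hm1.integral_prod_right' (ν := gam d)
    have : IsFiniteMeasure (volume.restrict (Ioo 0 s)) :=
      ⟨by rw [Measure.restrict_apply_univ]; exact measure_Ioo_lt_top⟩
    refine Integrable.of_bound (C := B) hm2.aestronglyMeasurable (Eventually.of_forall fun p => ?_)
    refine (norm_integral_le_of_norm_le_const (C := B) (Eventually.of_forall fun z => ?_)).trans ?_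
    · exact hB _ _
    · simp

end Pool.Agent.Helper79.ND.SMO
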